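import Mathlib

open Cardinal Set Filter Topology

namespace Pool.Agent.Results.MP_af568f_an.NoBasicSequence

/-- index type: the initial ordinal of cardinality continuum -/
abbrev Idx : Type := (Cardinal.continuum).ord.ToType

theorem mk_idx : #Idx = 𝔠 := mk_ord_toType _

theorem aleph0_lt_cof : ℵ₀ < Order.cof Idx := by
  rw [Ordinal.cof_toType]
  have h : ℵ₀ < ((2 : Cardinal) ^ ℵ₀).ord.cof :=
    Cardinal.lt_cof_ord_power le_rfl (by norm_num)
  rwa [two_power_aleph0] at h

theorem exists_gt_countable {s : Set Idx} (hs : s.Countable) : ∃ j, ∀ i ∈ s, i < j := by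
  rw [← not_isCofinal_iff]
  intro h
  have h1 := Order.cof_le h
  have h2 : #s ≤ ℵ₀ := Cardinal.le_aleph0_iff_set_countable.mpr hs
  exact absurd (aleph0_lt_cof) (not_lt.mpr (h1.trans h2))

theorem mk_Iio_lt (i : Idx) : #(Iio i) < 𝔠 := by
  have := Cardinal.mk_Iio_lt i (by rw [mk_idx]; exact (Ordinal.type_toType _).symm)
  rwa [mk_idx] at this

theorem mk_Iic_lt (i : Idx) : #(Iic i) < 𝔠 := by
  obtain ⟨j, hj⟩ := exists_gt_countable (s := {i}) (countable_singleton i)
  refine lt_of_le_of_lt (mk_le_mk_of_subset ?_) (mk_Iio_lt j)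
  intro k hk
  exact lt_of_le_of_lt hk (hj i rfl)

variable {𝕜 : Type} [RCLike 𝕜]

theorem mk_field : #𝕜 = 𝔠 := by
  apply le_antisymm
  · have : Function.Injective (fun z : 𝕜 => (RCLike.re z, RCLike.im z)) := by
      intro z w h
      simp only [Prod.mk.injEq] at h
      exact RCLike.ext h.1 h.2
    have h1 := Cardinal.mk_le_of_injective this
    simpa [mk_real] using h1
  · have : Function.Injective (fun x : ℝ => (x : 𝕜)) := RCLike.ofReal_injective
    have h1 := Cardinal.mk_le_of_injective this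
    simpa [mk_real] using h1

theorem mk_E : #(Idx →₀ 𝕜) = 𝔠 := by
  have : Infinite Idx := by
    rw [Cardinal.infinite_iff, mk_idx]; exact aleph0_le_continuum
  rw [mk_finsupp_of_infinite, mk_idx, mk_field, max_self]

theorem exists_enum : ∃ s : Idx → (ℕ → (Idx →₀ 𝕜)), ∀ y γ, ∃ β, γ < β ∧ s β = y := by
  have h : #(( ℕ → (Idx →₀ 𝕜)) × Idx) = #Idx := by
    rw [mk_prod, lift_id, lift_id, mk_idx, mk_pi]
    simp [mk_E]
  obtain ⟨φ⟩ := Cardinal.eq.mp h
  refine ⟨fun β => (φ.symm β).1, ?_⟩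
  intro y γ
  by_contra hcon
  push Not at hcon
  have h2 : ∀ j : Idx, φ (y, j) ∈ Iic γ := by
    intro j
    by_contra hj
    rw [mem_Iic, not_le] at hj
    exact hcon _ hj (by simp)
  have h3 : Function.Injective (fun j : Idx => (⟨φ (y, j), h2 j⟩ : Iic γ)) := by
    intro a b hab
    simp only [Subtype.mk.injEq, EmbeddingLike.apply_eq_iff_eq, Prod.mk.injEq, true_and] at hab
    exact hab
  have h4 := Cardinal.mk_le_of_injective h3
  rw [mk_idx] at h4
  exact absurd (mk_Iic_lt γ) (not_lt.mpr h4)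

theorem rank_field (K : Subfield 𝕜) (hK : #K < 𝔠) : Module.rank K 𝕜 = 𝔠 := by
  have : CharZero K := inferInstance
  have : Infinite K := inferInstance
  rw [Module.Free.rank_eq_mk_of_infinite_lt K 𝕜 (by simpa [mk_field] using hK), mk_field]

theorem exists_big (K : Subfield 𝕜) (hK : #K < 𝔠) {V : Type} [AddCommGroup V] [Module K V]
    (hV : Module.rank K V < 𝔠) (s : Set V) (hs : LinearIndepOn K id s) (κ : V → ℝ) :
    ∃ T : V →ₗ[K] 𝕜, Function.Injective T ∧ ∀ v ∈ s, κ v ≤ ‖T v‖ := by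
  let b := Module.Basis.extend hs
  have hJ : #(hs.extend (subset_univ s)) < 𝔠 := by
    rw [b.mk_eq_rank'']; exact hV
  let B := Module.Basis.ofVectorSpace K 𝕜
  have hJ' : #(Module.Basis.ofVectorSpaceIndex K 𝕜) = 𝔠 := by
    rw [B.mk_eq_rank'', rank_field K hK]
  obtain ⟨emb⟩ : Nonempty ((hs.extend (subset_univ s)) ↪ (Module.Basis.ofVectorSpaceIndex K 𝕜)) := by
    rw [← Cardinal.le_def, hJ']; exact hJ.le
  have hτ : LinearIndependent K (fun j => B (emb j)) :=
    B.linearIndependent.comp emb emb.injective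
  have hm : ∀ j : (hs.extend (subset_univ s)), ∃ m : ℕ, m ≠ 0 ∧ κ j ≤ m * ‖B (emb j)‖ := by
    intro j
    have hne : B (emb j) ≠ 0 := hτ.ne_zero j
    have hpos : 0 < ‖B (emb j)‖ := norm_pos_iff.mpr hne
    obtain ⟨n, hn⟩ := exists_nat_ge (κ j / ‖B (emb j)‖)
    refine ⟨n + 1, by omega, ?_⟩
    rw [div_le_iff₀ hpos] at hn
    push_cast
    nlinarith
  choose m hm0 hm1 using hm
  have hτ' : LinearIndependent K (fun j => ((m j : K)) • B (emb j)) := by
    have := hτ.units_smul (fun j => Units.mk0 (m j : K) (by exact_mod_cast hm0 j))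
    exact this
  refine ⟨b.constr K (fun j => ((m j : K)) • B (emb j)), ?_, ?_⟩
  · have h1 : Function.Injective (Finsupp.linearCombination K (fun j => ((m j : K)) • B (emb j))) := hτ'
    intro v w h
    rw [Module.Basis.constr_apply, Module.Basis.constr_apply] at h
    exact b.repr.injective (h1 h)
  · intro v hv
    have hv' : v ∈ hs.extend (subset_univ s) := hs.subset_extend _ hv
    have h1 : b ⟨v, hv'⟩ = v := by
      simp [b, Module.Basis.coe_extend]
    have h2 := b.constr_basis K (fun j => ((m j : K)) • B (emb j)) ⟨v, hv'⟩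
    rw [h1] at h2
    rw [h2]
    have h3 := hm1 ⟨v, hv'⟩
    have h4 : ‖((m ⟨v, hv'⟩ : K)) • B (emb ⟨v, hv'⟩)‖ = (m ⟨v, hv'⟩ : ℝ) * ‖B (emb ⟨v, hv'⟩)‖ := by
      rw [Subfield.smul_def, norm_smul]
      simp
    rw [h4]
    exact h3


/-- vectors supported below `β` with coefficients in the subfield `K` -/
def ratl (K : Subfield 𝕜) (β : Idx) : Submodule K (Idx →₀ 𝕜) where
  carrier := {v | (∀ i, v i ≠ 0 → i < β) ∧ ∀ i, v i ∈ K}
  add_mem' := by
    intro a b ha hb
    refine ⟨fun i hi => ?_, fun i => K.add_mem (ha.2 i) (hb.2 i)⟩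
    by_contra hcon
    have h1 : a i = 0 := by by_contra h; exact hcon (ha.1 i h)
    have h2 : b i = 0 := by by_contra h; exact hcon (hb.1 i h)
    apply hi
    simp [h1, h2]
  zero_mem' := ⟨fun i hi => absurd rfl hi, fun i => K.zero_mem⟩
  smul_mem' := by
    intro c v hv
    refine ⟨fun i hi => ?_, fun i => ?_⟩
    · by_contra hcon
      have h1 : v i = 0 := by by_contra h; exact hcon (hv.1 i h)
      apply hi
      simp [h1]
    · rw [Finsupp.smul_apply, Subfield.smul_def, smul_eq_mul]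
      exact K.mul_mem c.2 (hv.2 i)

theorem ratl_le_span (K : Subfield 𝕜) (β : Idx) :
    ratl K β ≤ Submodule.span K (range (fun i : Iio β => (Finsupp.single (i : Idx) (1 : 𝕜)))) := by
  intro v hv
  rw [← Finsupp.sum_single v]
  refine Submodule.sum_mem _ ?_
  intro i hi
  have hi' : v i ≠ 0 := Finsupp.mem_support_iff.mp hi
  have h1 : Finsupp.single i (v i) = (⟨v i, hv.2 i⟩ : K) • Finsupp.single i (1 : 𝕜) := by
    ext j
    by_cases h : i = j
    · subst h
      simp [Subfield.smul_def]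
    · simp [Finsupp.single_eq_of_ne' h]
  rw [h1]
  exact Submodule.smul_mem _ _ (Submodule.subset_span ⟨⟨i, hv.1 i hi'⟩, rfl⟩)

theorem rank_ratl (K : Subfield 𝕜) (β : Idx) : Module.rank K (ratl K β) < 𝔠 := by
  refine lt_of_le_of_lt (Submodule.rank_mono (ratl_le_span K β)) ?_
  refine lt_of_le_of_lt (rank_span_le _) ?_
  exact lt_of_le_of_lt mk_range_le (mk_Iio_lt β)

/-- the functional with values `t i` on the basis vectors -/
noncomputable def lf (t : Idx → 𝕜) : (Idx →₀ 𝕜) →ₗ[𝕜] 𝕜 := Finsupp.linearCombination 𝕜 t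

/-- the requirements on the functional chosen at stage `β` -/
def Good (K : Subfield 𝕜) (β : Idx) (y : ℕ → (Idx →₀ 𝕜)) (t : Idx → 𝕜) : Prop :=
  (∀ i, ¬ i < β → t i = 0) ∧
  (∀ v ∈ ratl K β, lf t v = 0 → v = 0) ∧
  (LinearIndependent 𝕜 y → (∀ k, y k ∈ ratl K β) → ∀ k : ℕ, (k : ℝ) ≤ ‖lf t (y k)‖)

theorem restrict_li (K : Subfield 𝕜) (y : ℕ → (Idx →₀ 𝕜)) (hy1 : LinearIndependent 𝕜 y) :
    LinearIndependent K y := by
  refine hy1.restrict_scalars ?_
  intro a b hab
  simp only [Subfield.smul_def, smul_eq_mul, mul_one] at hab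
  exact Subtype.ext hab

theorem single_eq_smul (K : Subfield 𝕜) (i : Idx) (c : K) :
    Finsupp.single i (c : 𝕜) = c • Finsupp.single i (1 : 𝕜) := by
  ext j
  by_cases h : i = j
  · subst h
    simp [Subfield.smul_def]
  · simp [Finsupp.single_eq_of_ne' h]


theorem exists_T_abs (K : Subfield 𝕜) (hK : #K < 𝔠) {V : Type} [AddCommGroup V] [Module K V]
    (hV : Module.rank K V < 𝔠) (y : ℕ → V) :
    ∃ T : V →ₗ[K] 𝕜, Function.Injective T ∧
      (LinearIndependent K y → ∀ k : ℕ, (k : ℝ) ≤ ‖T (y k)‖) := by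
  classical
  by_cases hy : LinearIndependent K y
  · have hinj := hy.injective
    obtain ⟨T, hT1, hT2⟩ := exists_big K hK hV
      (range y) hy.linearIndepOn_id
      (fun v => if h : ∃ k, y k = v then ((h.choose : ℕ) : ℝ) else 0)
    refine ⟨T, hT1, fun _ k => ?_⟩
    have h1 := hT2 (y k) ⟨k, rfl⟩
    have h2 : ∃ k', y k' = y k := ⟨k, rfl⟩
    simp only [dif_pos h2] at h1
    have h3 : h2.choose = k := hinj h2.choose_spec
    rw [h3] at h1
    exact h1
  · obtain ⟨T, hT1, -⟩ := exists_big K hK hV ∅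
      (linearIndepOn_empty K _) (fun _ => 0)
    exact ⟨T, hT1, fun h1 => absurd h1 hy⟩

theorem exists_T (K : Subfield 𝕜) (hK : #K < 𝔠) (β : Idx) (y : ℕ → (Idx →₀ 𝕜)) :
    ∃ T : ratl K β →ₗ[K] 𝕜, Function.Injective T ∧
      (LinearIndependent 𝕜 y → ∀ h : (∀ k, y k ∈ ratl K β), ∀ k : ℕ, (k : ℝ) ≤ ‖T ⟨y k, h k⟩‖) := by
  classical
  by_cases hy : ∀ k, y k ∈ ratl K β
  · obtain ⟨T, hT1, hT2⟩ := exists_T_abs K hK (rank_ratl K β) (fun k => (⟨y k, hy k⟩ : ratl K β))
    refine ⟨T, hT1, fun hli _ k => ?_⟩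
    refine hT2 ?_ k
    apply LinearIndependent.of_comp (ratl K β).subtype
    exact restrict_li K y hli
  · obtain ⟨T, hT1, -⟩ := exists_T_abs K hK (rank_ratl K β) (fun k => (0 : ratl K β))
    exact ⟨T, hT1, fun _ h => absurd h hy⟩

theorem lf_eq (K : Subfield 𝕜) (β : Idx) (T' : (Idx →₀ 𝕜) →ₗ[K] 𝕜) (t : Idx → 𝕜)
    (ht : ∀ i, i < β → t i = T' (Finsupp.single i 1)) (v : Idx →₀ 𝕜) (hv : v ∈ ratl K β) :
    lf t v = T' v := by
  conv_rhs => rw [← Finsupp.sum_single v]
  rw [lf, Finsupp.linearCombination_apply, Finsupp.sum, Finsupp.sum, map_sum]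
  refine Finset.sum_congr rfl fun i hi => ?_
  have hi' : v i ≠ 0 := Finsupp.mem_support_iff.mp hi
  have h1 : Finsupp.single i (v i) = (⟨v i, hv.2 i⟩ : K) • Finsupp.single i (1 : 𝕜) :=
    single_eq_smul K i ⟨v i, hv.2 i⟩
  rw [h1, map_smul, Subfield.smul_def, ht i (hv.1 i hi')]

theorem core (K : Subfield 𝕜) (hK : #K < 𝔠) (β : Idx) (y : ℕ → (Idx →₀ 𝕜)) :
    ∃ t, Good K β y t := by
  classical
  obtain ⟨T, hT1, hT2⟩ := exists_T K hK β y
  obtain ⟨T', hT'⟩ := T.exists_extend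
  have key : ∀ v (hv : v ∈ ratl K β),
      lf (fun i => if i < β then T' (Finsupp.single i 1) else 0) v = T ⟨v, hv⟩ := by
    intro v hv
    rw [lf_eq K β T' _ (fun i hi => if_pos hi) v hv, ← hT']
    rfl
  refine ⟨fun i => if i < β then T' (Finsupp.single i 1) else 0, ?_, ?_, ?_⟩
  · exact fun i hi => if_neg hi
  · intro v hv h
    rw [key v hv] at h
    have h3 : (⟨v, hv⟩ : ratl K β) = 0 := hT1 (by rw [h, map_zero])
    exact congrArg Subtype.val h3
  · intro h1 h2 k
    rw [key _ (h2 k)]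
    exact hT2 h1 h2 k

/-- the subfield generated by the data available before stage `β` -/
def fld (e : Idx → 𝕜) (β : Idx) (prior : ∀ α, α < β → Idx → 𝕜) : Subfield 𝕜 :=
  Subfield.closure ((range fun α : Iio β => e α) ∪
    range fun p : Iio β × Iio β => prior p.1 p.1.2 p.2)

theorem mk_fld_lt (e : Idx → 𝕜) (β : Idx) (prior : ∀ α, α < β → Idx → 𝕜) :
    #(fld e β prior) < 𝔠 := by
  refine lt_of_le_of_lt (Subfield.cardinalMk_closure_le_max _) ?_
  refine max_lt ?_ aleph0_lt_continuum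
  refine lt_of_le_of_lt (mk_union_le _ _) ?_
  refine add_lt_of_lt aleph0_le_continuum (lt_of_le_of_lt mk_range_le (mk_Iio_lt β)) ?_
  refine lt_of_le_of_lt mk_range_le ?_
  rw [← Cardinal.mul_def]
  exact mul_lt_of_lt aleph0_le_continuum (mk_Iio_lt β) (mk_Iio_lt β)

theorem exists_family (e : Idx → 𝕜) (s : Idx → ℕ → (Idx →₀ 𝕜)) :
    ∃ (f : Idx → Idx → 𝕜), ∀ β, Good (fld e β fun α _ => f α) β (s β) (f β) := by
  classical
  let f : Idx → Idx → 𝕜 := WellFounded.fix (wellFounded_lt (α := Idx))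
    (fun β prior => Classical.choose (core (fld e β prior) (mk_fld_lt e β prior) β (s β)))
  refine ⟨f, fun β => ?_⟩
  have h : f β = Classical.choose (core (fld e β fun α _ => f α)
      (mk_fld_lt e β fun α _ => f α) β (s β)) := by
    exact WellFounded.fix_eq _ _ _
  have h2 := Classical.choose_spec (core (fld e β fun α _ => f α)
      (mk_fld_lt e β fun α _ => f α) β (s β))
  rw [← h] at h2
  exact h2

section family

variable (e : Idx → 𝕜) (f : Idx → Idx → 𝕜)

/-- the subfield at stage `β` -/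
abbrev Kf (β : Idx) : Subfield 𝕜 := fld e β fun α _ => f α

theorem Kf_mono {β γ : Idx} (h : β ≤ γ) : Kf e f β ≤ Kf e f γ := by
  refine Subfield.closure_mono ?_
  refine union_subset_union ?_ ?_
  · rintro _ ⟨α, rfl⟩
    exact ⟨⟨α.1, lt_of_lt_of_le α.2 h⟩, rfl⟩
  · rintro _ ⟨q, rfl⟩
    exact ⟨(⟨q.1.1, lt_of_lt_of_le q.1.2 h⟩, ⟨q.2.1, lt_of_lt_of_le q.2.2 h⟩), rfl⟩

theorem e_mem {α β : Idx} (h : α < β) : e α ∈ Kf e f β :=
  Subfield.subset_closure (Or.inl ⟨⟨α, h⟩, rfl⟩)

theorem f_mem {α β i : Idx} (h : α < β) (hi : i < β) : f α i ∈ Kf e f β :=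
  Subfield.subset_closure (Or.inr ⟨(⟨α, h⟩, ⟨i, hi⟩), rfl⟩)

theorem exists_stage (he : Function.Surjective e) (y : ℕ → (Idx →₀ 𝕜)) :
    ∃ γ, (∀ k i, y k i ≠ 0 → i < γ) ∧ ∀ β, γ ≤ β → ∀ k, y k ∈ ratl (Kf e f β) β := by
  choose g hg using he
  have hc : (⋃ k : ℕ, ⋃ i ∈ (y k).support, ({i, g (y k i)} : Set Idx)).Countable := by
    refine countable_iUnion fun k => ?_
    refine Set.Countable.biUnion (Finset.countable_toSet _) fun i _ => ?_
    exact (Set.toFinite _).countable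
  obtain ⟨γ, hγ⟩ := exists_gt_countable hc
  have h1 : ∀ k i, y k i ≠ 0 → i < γ ∧ g (y k i) < γ := by
    intro k i hi
    have hi' : i ∈ (y k).support := Finsupp.mem_support_iff.mpr hi
    constructor
    · refine hγ _ ?_
      simp only [mem_iUnion]
      exact ⟨k, i, hi', by simp⟩
    · refine hγ _ ?_
      simp only [mem_iUnion]
      exact ⟨k, i, hi', by simp⟩
  refine ⟨γ, fun k i hi => (h1 k i hi).1, fun β hβ k => ⟨fun i hi => ?_, fun i => ?_⟩⟩
  · exact lt_of_lt_of_le (h1 k i hi).1 hβ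
  · by_cases hi : y k i = 0
    · rw [hi]; exact (Kf e f β).zero_mem
    · have h2 := e_mem e f (lt_of_lt_of_le (h1 k i hi).2 hβ)
      rwa [hg] at h2

theorem lf_mem {α β : Idx} (h : α < β) {v : Idx →₀ 𝕜} (hv : v ∈ ratl (Kf e f β) β) :
    lf (f α) v ∈ Kf e f β := by
  rw [lf, Finsupp.linearCombination_apply, Finsupp.sum]
  refine Subfield.sum_mem _ fun i hi => ?_
  rw [smul_eq_mul]
  exact Subfield.mul_mem _ (hv.2 i) (f_mem e f h (hv.1 i (Finsupp.mem_support_iff.mp hi)))

theorem propA (he : Function.Surjective e) (s : Idx → ℕ → (Idx →₀ 𝕜))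
    (hs : ∀ y γ, ∃ β, γ < β ∧ s β = y) (hf : ∀ β, Good (Kf e f β) β (s β) (f β))
    (y : ℕ → (Idx →₀ 𝕜)) (hy : LinearIndependent 𝕜 y) :
    ∃ β, ∀ k : ℕ, (k : ℝ) ≤ ‖lf (f β) (y k)‖ := by
  obtain ⟨γ, -, hγ⟩ := exists_stage e f he y
  obtain ⟨β, hβ, hβy⟩ := hs y γ
  have h1 := (hf β).2.2
  rw [hβy] at h1
  exact ⟨β, h1 hy (hγ β hβ.le)⟩

theorem propB (he : Function.Surjective e) (s : Idx → ℕ → (Idx →₀ 𝕜))
    (hf : ∀ β, Good (Kf e f β) β (s β) (f β))
    (y : ℕ → (Idx →₀ 𝕜)) (hy : LinearIndependent 𝕜 y) :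
    ∃ x, x ∉ Submodule.span 𝕜 (range y) ∧ ∀ c : Idx →₀ 𝕜,
      (∀ k, ∑ α ∈ c.support, c α * lf (f α) (y k) = 0) →
      ∑ α ∈ c.support, c α * lf (f α) x = 0 := by
  classical
  obtain ⟨γ, hγ0, hγ⟩ := exists_stage e f he y
  refine ⟨Finsupp.single γ 1, ?_, ?_⟩
  · intro hx
    have h1 : Submodule.span 𝕜 (range y) ≤ LinearMap.ker (Finsupp.lapply (R := 𝕜) (M := 𝕜) γ) := by
      rw [Submodule.span_le]
      rintro _ ⟨k, rfl⟩
      rw [SetLike.mem_coe, LinearMap.mem_ker, Finsupp.lapply_apply]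
      by_contra h
      exact lt_irrefl _ (hγ0 k γ h)
    have h2 := h1 hx
    rw [LinearMap.mem_ker, Finsupp.lapply_apply, Finsupp.single_eq_same] at h2
    exact one_ne_zero h2
  · intro c hc
    by_contra hne
    obtain ⟨β', hβ', hβ'ne⟩ := Finset.exists_ne_zero_of_sum_ne_zero hne
    have hne' : c.support.Nonempty := ⟨β', hβ'⟩
    set β := c.support.max' hne' with hβdef
    have hβmem : β ∈ c.support := c.support.max'_mem hne'
    have hγβ : γ < β := by
      refine lt_of_lt_of_le ?_ (c.support.le_max' _ hβ')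
      by_contra h
      apply hβ'ne
      have h3 : lf (f β') (Finsupp.single γ (1 : 𝕜)) = f β' γ := by
        simp [lf]
      rw [h3, (hf β').1 γ h, mul_zero]
    set S := c.support.erase β with hS
    have hSlt : ∀ α ∈ S, α < β := by
      intro α hα
      rw [hS, Finset.mem_erase] at hα
      exact lt_of_le_of_ne (c.support.le_max' _ hα.2) hα.1
    have hyK := hγ β hγβ.le
    -- the finite dimensional relation
    let u : Fin (S.card + 1) → (S → Kf e f β) := fun k α =>
      ⟨lf (f α) (y k), lf_mem e f (hSlt α α.2) (hyK k)⟩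
    have hu : ¬ LinearIndependent (Kf e f β) u := by
      intro h
      have h4 := h.fintype_card_le_finrank
      simp at h4
    rw [Fintype.not_linearIndependent_iff] at hu
    obtain ⟨g, hg, k0, hk0⟩ := hu
    set w : Idx →₀ 𝕜 := ∑ k : Fin (S.card + 1), (g k) • y k with hw
    have hwmem : w ∈ ratl (Kf e f β) β :=
      Submodule.sum_mem _ fun k _ => Submodule.smul_mem _ _ (hyK k)
    have hlfw : ∀ α, lf (f α) w = ∑ k : Fin (S.card + 1), (g k : 𝕜) * lf (f α) (y k) := by
      intro α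
      rw [hw, map_sum]
      refine Finset.sum_congr rfl fun k _ => ?_
      rw [Subfield.smul_def, map_smul, smul_eq_mul]
    have hw0 : ∀ α ∈ S, lf (f α) w = 0 := by
      intro α hα
      have h5 := congrFun hg ⟨α, hα⟩
      have h6 := congrArg (Subtype.val) h5
      rw [hlfw]
      simpa [u, Finset.sum_apply, smul_eq_mul] using h6
    have hsum : ∑ α ∈ c.support, c α * lf (f α) w = 0 := by
      have h7 : ∑ α ∈ c.support, c α * lf (f α) w =
          ∑ k : Fin (S.card + 1), (g k : 𝕜) * ∑ α ∈ c.support, c α * lf (f α) (y k) := by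
        simp_rw [hlfw, Finset.mul_sum]
        rw [Finset.sum_comm]
        refine Finset.sum_congr rfl fun k _ => Finset.sum_congr rfl fun α _ => ?_
        ring
      rw [h7]
      exact Finset.sum_eq_zero fun k _ => by rw [hc k, mul_zero]
    rw [← Finset.add_sum_erase _ _ hβmem] at hsum
    rw [Finset.sum_eq_zero (s := c.support.erase β) (fun α hα => by rw [hw0 α hα, mul_zero]),
      add_zero] at hsum
    have h8 : lf (f β) w = 0 := by
      rcases mul_eq_zero.mp hsum with h | h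
      · exact absurd h (Finsupp.mem_support_iff.mp hβmem)
      · exact h
    have h9 : w = 0 := (hf β).2.1 w hwmem h8
    have hyK' : LinearIndependent (Kf e f β) (fun k : Fin (S.card + 1) => y k) :=
      (restrict_li (Kf e f β) y hy).comp _ Fin.val_injective
    have h10 := Fintype.linearIndependent_iff.mp hyK' g h9 k0
    exact hk0 h10

theorem propC (he : Function.Surjective e) (s : Idx → ℕ → (Idx →₀ 𝕜))
    (hf : ∀ β, Good (Kf e f β) β (s β) (f β)) (v : Idx →₀ 𝕜) (hv : ∀ β, lf (f β) v = 0) :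
    v = 0 := by
  obtain ⟨γ, -, hγ⟩ := exists_stage e f he (fun _ => v)
  exact (hf γ).2.1 v (hγ γ le_rfl 0) (hv γ)

end family

section weak

variable {E F : Type} [AddCommGroup E] [Module 𝕜 E] [AddCommGroup F] [Module 𝕜 F]

/-- the bilinear form, seen on the space with the weak topology -/
def onWeak (B : E →ₗ[𝕜] F →ₗ[𝕜] 𝕜) : WeakBilin B →ₗ[𝕜] F →ₗ[𝕜] 𝕜 := B

theorem mem_closure_of_annihilator (B : E →ₗ[𝕜] F →ₗ[𝕜] 𝕜) (M : Submodule 𝕜 (WeakBilin B))
    (x : WeakBilin B)
    (h : ∀ c : F, (∀ m ∈ M, onWeak B m c = 0) → onWeak B x c = 0) :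
    x ∈ closure (M : Set (WeakBilin B)) := by
  classical
  rw [mem_closure_iff_nhds]
  intro t ht
  rw [(LinearMap.weakBilin_withSeminorms B).mem_nhds_iff] at ht
  obtain ⟨S, r, hr, hball⟩ := ht
  -- evaluation map on the finite set S
  let Φ : WeakBilin B →ₗ[𝕜] (S → 𝕜) := LinearMap.pi fun c => (onWeak B).flip c
  have hmem : Φ x ∈ M.map Φ := by
    by_contra hcon
    obtain ⟨g, hg1, hg2⟩ := Submodule.exists_le_ker_of_notMem hcon
    have hgc : ∀ v : WeakBilin B,
        g (Φ v) = onWeak B v (∑ c : S, g (Pi.single c 1) • (c : F)) := by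
      intro v
      have h1 : Φ v = ∑ c : S, onWeak B v c • (Pi.single c (1 : 𝕜) : S → 𝕜) := by
        ext d
        simp [Φ, Finset.sum_apply, Pi.single_apply]
      rw [h1, map_sum, map_sum]
      refine Finset.sum_congr rfl fun c _ => ?_
      rw [map_smul, map_smul, smul_eq_mul, smul_eq_mul, mul_comm]
    apply hg1
    rw [hgc]
    apply h
    intro m hm
    rw [← hgc]
    exact hg2 ⟨m, hm, rfl⟩
  obtain ⟨m, hm, hmx⟩ := hmem
  refine ⟨m, hball ?_, hm⟩
  rw [Seminorm.mem_ball]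
  refine Seminorm.finset_sup_apply_lt hr fun c hc => ?_
  have h2 : onWeak B m c = onWeak B x c := congrFun hmx ⟨c, hc⟩
  change ‖onWeak B (m - x) c‖ < r
  rw [map_sub, LinearMap.sub_apply, h2, sub_self, norm_zero]
  exact hr

end weak

section defs

variable (𝕜) {U : Type} [AddCommGroup U] [Module 𝕜 U] [TopologicalSpace U]

/-- `[x_n]`: the closure of the linear span of the sequence. -/
def ClosedSpan (x : ℕ → U) : Set U := closure (Submodule.span 𝕜 (range x) : Set U)

/-- The sequence `x` is a basis of the closed span `[x_n]`: every `v ∈ [x_n]` has exactly one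
expansion `v = ∑ a n • x n`, the partial sums converging to `v` in the topology of `U`. -/
def IsBasicSeq (x : ℕ → U) : Prop :=
  ∀ v ∈ ClosedSpan 𝕜 x, ∃! a : ℕ → 𝕜,
    Tendsto (fun N => ∑ n ∈ Finset.range N, a n • x n) atTop (𝓝 v)

/-- Schauder basic sequence: a basic sequence whose coefficient functionals are continuous
on the closed span. -/
def IsSchauderBasicSeq (x : ℕ → U) : Prop :=
  IsBasicSeq 𝕜 x ∧ ∀ n, ∃ f : U → 𝕜, ContinuousOn f (ClosedSpan 𝕜 x) ∧
    ∀ v ∈ ClosedSpan 𝕜 x, ∀ a : ℕ → 𝕜,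
      Tendsto (fun N => ∑ n ∈ Finset.range N, a n • x n) atTop (𝓝 v) → f v = a n

end defs

theorem IsBasicSeq.linearIndependent {U : Type} [AddCommGroup U] [Module 𝕜 U]
    [TopologicalSpace U] {x : ℕ → U} (hx : IsBasicSeq 𝕜 x) :
    LinearIndependent 𝕜 x := by
  classical
  rw [linearIndependent_iff]
  intro l hl
  have h0 : (0 : U) ∈ ClosedSpan 𝕜 x := subset_closure (Submodule.zero_mem _)
  have h1 := (hx 0 h0)
  have h2 : Tendsto (fun N => ∑ n ∈ Finset.range N, (0 : ℕ → 𝕜) n • x n) atTop (𝓝 0) := by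
    simpa using tendsto_const_nhds
  have h3 : Tendsto (fun N => ∑ n ∈ Finset.range N, l n • x n) atTop (𝓝 0) := by
    refine tendsto_const_nhds.congr' ?_
    obtain ⟨N0, hN0⟩ : ∃ N0, ∀ n ∈ l.support, n < N0 := by
      refine ⟨l.support.sup id + 1, fun n hn => ?_⟩
      exact Nat.lt_succ_of_le (Finset.le_sup (f := id) hn)
    filter_upwards [eventually_ge_atTop N0] with N hN
    rw [Finsupp.linearCombination_apply, Finsupp.sum] at hl
    rw [← hl]
    refine Finset.sum_subset ?_ ?_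
    · intro n hn
      exact Finset.mem_range.mpr (lt_of_lt_of_le (hN0 n hn) hN)
    · intro n _ hn
      rw [Finsupp.notMem_support_iff.mp hn, zero_smul]
  have h4 : (fun n => l n) = (0 : ℕ → 𝕜) := h1.unique h3 h2
  ext n
  exact congrFun h4 n

/-- the pairing between `U` and the span of the functionals -/
noncomputable def pairing (f : Idx → Idx → 𝕜) :
    (Idx →₀ 𝕜) →ₗ[𝕜] (Idx →₀ 𝕜) →ₗ[𝕜] 𝕜 :=
  (Finsupp.linearCombination 𝕜 (fun β => lf (f β))).flip

theorem pairing_apply (f : Idx → Idx → 𝕜) (v c : Idx →₀ 𝕜) :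
    pairing f v c = ∑ α ∈ c.support, c α * lf (f α) v := by
  rw [pairing, LinearMap.flip_apply, Finsupp.linearCombination_apply, Finsupp.sum,
    LinearMap.sum_apply]
  rfl

theorem pairing_single (f : Idx → Idx → 𝕜) (v : Idx →₀ 𝕜) (β : Idx) :
    pairing f v (Finsupp.single β 1) = lf (f β) v := by
  rw [pairing, LinearMap.flip_apply, Finsupp.linearCombination_single, one_smul]

theorem t2_weak (f : Idx → Idx → 𝕜)
    (hC : ∀ v : Idx →₀ 𝕜, (∀ β, lf (f β) v = 0) → v = 0) : T2Space (WeakBilin (pairing f)) := by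
  have hinj : Function.Injective (pairing f) := by
    rw [injective_iff_map_eq_zero]
    intro v hv
    apply hC
    intro β
    rw [← pairing_single, hv, LinearMap.zero_apply]
  exact (WeakBilin.isEmbedding hinj).t2Space

theorem no_basic (f : Idx → Idx → 𝕜)
    (hA : ∀ y : ℕ → (Idx →₀ 𝕜), LinearIndependent 𝕜 y → ∃ β, ∀ k : ℕ, (k : ℝ) ≤ ‖lf (f β) (y k)‖)
    (hB : ∀ y : ℕ → (Idx →₀ 𝕜), LinearIndependent 𝕜 y →
      ∃ x, x ∉ Submodule.span 𝕜 (range y) ∧ ∀ c : Idx →₀ 𝕜,
      (∀ k, ∑ α ∈ c.support, c α * lf (f α) (y k) = 0) →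
      ∑ α ∈ c.support, c α * lf (f α) x = 0)
    (hC : ∀ v : Idx →₀ 𝕜, (∀ β, lf (f β) v = 0) → v = 0)
    (x : ℕ → WeakBilin (pairing f)) : ¬ IsBasicSeq 𝕜 x := by
  classical
  intro hx
  have hT2 := t2_weak f hC
  have hli : LinearIndependent 𝕜 x := hx.linearIndependent
  obtain ⟨z, hz, hz'⟩ : ∃ z : WeakBilin (pairing f), z ∉ Submodule.span 𝕜 (range x) ∧
      ∀ c : Idx →₀ 𝕜, (∀ k, ∑ α ∈ c.support, c α * lf (f α) (x k) = 0) →
      ∑ α ∈ c.support, c α * lf (f α) z = 0 := hB x hli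
  have hz2 : z ∈ ClosedSpan 𝕜 x := by
    refine mem_closure_of_annihilator (pairing f) (Submodule.span 𝕜 (range x)) z ?_
    intro c hc
    change pairing f z c = 0
    rw [pairing_apply]
    apply hz'
    intro k
    rw [← pairing_apply]
    exact hc (x k) (Submodule.subset_span ⟨k, rfl⟩)
  obtain ⟨a, ha, -⟩ := hx _ hz2
  -- the coefficient sequence has infinite support
  have hinf : {n | a n ≠ 0}.Infinite := by
    intro hfin
    apply hz
    obtain ⟨N0, hN0⟩ : ∃ N0, ∀ n, a n ≠ 0 → n < N0 := by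
      obtain ⟨N, hN⟩ := hfin.bddAbove
      exact ⟨N + 1, fun n hn => Nat.lt_succ_of_le (hN hn)⟩
    have h1 : Tendsto (fun N => ∑ n ∈ Finset.range N, a n • x n) atTop
        (𝓝 (∑ n ∈ Finset.range N0, a n • x n)) := by
      refine tendsto_const_nhds.congr' ?_
      filter_upwards [eventually_ge_atTop N0] with N hN
      refine Finset.sum_subset (Finset.range_mono hN) ?_
      intro n _ hn
      have h2 : a n = 0 := by
        by_contra h
        exact hn (Finset.mem_range.mpr (hN0 n h))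
      rw [h2, zero_smul]
    have h3 : z = ∑ n ∈ Finset.range N0, a n • x n := tendsto_nhds_unique ha h1
    rw [h3]
    exact Submodule.sum_mem _ fun n _ =>
      Submodule.smul_mem _ _ (Submodule.subset_span ⟨n, rfl⟩)
  let φ : ℕ → ℕ := Nat.nth fun n => a n ≠ 0
  have hφ : StrictMono φ := Nat.nth_strictMono hinf
  have hφa : ∀ k, a (φ k) ≠ 0 := fun k => Nat.nth_mem_of_infinite hinf k
  have hyli : LinearIndependent 𝕜 (fun k => a (φ k) • x (φ k)) :=
    (hli.comp φ hφ.injective).units_smul (fun k => Units.mk0 (a (φ k)) (hφa k))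
  obtain ⟨β, hβ⟩ := hA _ hyli
  have hcont : Continuous (fun v : WeakBilin (pairing f) => pairing f v (Finsupp.single β 1)) :=
    WeakBilin.eval_continuous (pairing f) _
  have h1 : Tendsto (fun N => pairing f (∑ n ∈ Finset.range N, a n • x n) (Finsupp.single β 1))
      atTop (𝓝 (pairing f z (Finsupp.single β 1))) := (hcont.tendsto _).comp ha
  have h2 : Tendsto (fun N => lf (f β) (a N • x N)) atTop (𝓝 0) := by
    have h3 := (h1.comp (tendsto_add_atTop_nat 1)).sub h1
    rw [sub_self] at h3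
    refine h3.congr ?_
    intro N
    simp only [Function.comp_apply]
    rw [pairing_single, pairing_single, ← map_sub]
    congr 1
    have h4 := Finset.sum_range_succ (fun n => a n • x n) N
    have h5 : (∑ n ∈ Finset.range (N + 1), a n • x n) - ∑ n ∈ Finset.range N, a n • x n
        = a N • x N := by
      rw [h4]
      exact add_sub_cancel_left (∑ n ∈ Finset.range N, a n • x n : WeakBilin (pairing f))
        (a N • x N)
    exact h5
  have h6 : Tendsto (fun k => ‖lf (f β) (a (φ k) • x (φ k))‖) atTop (𝓝 0) := by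
    have := (h2.comp hφ.tendsto_atTop).norm
    simpa using this
  have h7 : Tendsto (fun k : ℕ => (k : ℝ)) atTop atTop := tendsto_natCast_atTop_atTop
  have h8 : Tendsto (fun k => ‖lf (f β) (a (φ k) • x (φ k))‖) atTop atTop :=
    tendsto_atTop_mono hβ h7
  exact not_tendsto_nhds_of_tendsto_atTop h8 0 h6

/-- For `𝕜 = ℝ` or `ℂ` there is an infinite-dimensional Hausdorff locally convex space over `𝕜`
no sequence of which is a basis of its closed linear span. -/
theorem result (𝕜 : Type) [RCLike 𝕜] :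
    ∃ (U : Type) (_ : AddCommGroup U) (_ : Module 𝕜 U) (_ : TopologicalSpace U)
      (_ : IsTopologicalAddGroup U) (_ : ContinuousSMul 𝕜 U) (_ : T2Space U)
      (ι : Type) (p : SeminormFamily 𝕜 U ι),
      WithSeminorms p ∧ ¬ FiniteDimensional 𝕜 U ∧
      (∀ x : ℕ → U, ¬ IsBasicSeq 𝕜 x) ∧ (∀ x : ℕ → U, ¬ IsSchauderBasicSeq 𝕜 x) := by
  classical
  obtain ⟨s, hs⟩ := exists_enum (𝕜 := 𝕜)
  obtain ⟨e⟩ : Nonempty (Idx ≃ 𝕜) := Cardinal.eq.mp (by rw [mk_idx, mk_field])
  obtain ⟨f, hf⟩ := exists_family (e : Idx → 𝕜) s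
  have hA := propA e f e.surjective s hs hf
  have hB := propB e f e.surjective s hf
  have hC := propC e f e.surjective s hf
  refine ⟨WeakBilin (pairing f), inferInstance, inferInstance, inferInstance, inferInstance,
    inferInstance, t2_weak f hC, Idx →₀ 𝕜, (pairing f).toSeminormFamily,
    LinearMap.weakBilin_withSeminorms _, ?_, fun x => no_basic f hA hB hC x,
    fun x hx => no_basic f hA hB hC x hx.1⟩
  intro hfd
  have hfd' : FiniteDimensional 𝕜 (Idx →₀ 𝕜) := hfd
  have : Infinite Idx := by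
    rw [Cardinal.infinite_iff, mk_idx]; exact aleph0_le_continuum
  have h1 : LinearIndependent 𝕜 (fun i : Idx => Finsupp.single i (1 : 𝕜)) :=
    Finsupp.linearIndependent_single_one 𝕜 Idx
  exact h1.finite.false

end Pool.Agent.Results.MP_af568f_an.NoBasicSequence
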